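import Pool.Agent.Work.MP_f94239_co.Final

/-!
# MP_f94239_co: the minimum number of monochromatic triangles in Gallai colourings

For every `k ≥ 1` and every `n` the minimum number of monochromatic triangles in a
Gallai-`k`-colouring of `K_n` is `F k n`.
-/

set_option autoImplicit false

namespace Pool.Agent.Results.MP_f94239_co.GallaiMultiplicity

/-- The edge colouring `c` of `K_n` (vertex set `Fin n`, colours `Fin k`; the edge `xy` has colour
`c s(x, y)`, the values of `c` on the diagonal play no role) has no rainbow triangle. -/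
def IsGallai {n k : ℕ} (c : Sym2 (Fin n) → Fin k) : Prop :=
  ∀ x y z : Fin n, x ≠ y → y ≠ z → x ≠ z →
    c s(x, y) = c s(y, z) ∨ c s(y, z) = c s(x, z) ∨ c s(x, y) = c s(x, z)

open Classical in
/-- The number of monochromatic triangles of `c`: 3-subsets `t` of the vertex set all of whose
edges have one common colour `i`. -/
noncomputable def monoTriangles {n k : ℕ} (c : Sym2 (Fin n) → Fin k) : ℕ :=
  ((Finset.univ.powersetCard 3).filter (fun t : Finset (Fin n) =>
    ∃ i : Fin k, ∀ x ∈ t, ∀ y ∈ t, x ≠ y → c s(x, y) = i)).card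

/-- `M_2(K_3, m)`: the minimum number of monochromatic triangles over all 2-colourings of the
edges of `K_m`. -/
noncomputable def M2 (m : ℕ) : ℕ := sInf {t | ∃ c : Sym2 (Fin m) → Fin 2, monoTriangles c = t}

/-- `F_k(n)` of the problem, with `N = 5 ^ ⌊(k-1)/2⌋`, `m = n / N`, `r = n % N`. -/
noncomputable def F (k n : ℕ) : ℕ :=
  let N := 5 ^ ((k - 1) / 2)
  let m := n / N
  let r := n % N
  if Odd k then r * (m + 1).choose 3 + (N - r) * m.choose 3
  else r * M2 (m + 1) + (N - r) * M2 m

open Pool.Agent.Work.MP_f94239_co Classical in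
lemma mono_eq {n k : ℕ} (c : Sym2 (Fin n) → Fin k) :
    (monoTriangles c : ℝ) = T (fun x y : Fin n => (c s(x, y) : ℕ)) Finset.univ := by
  have hs : Sym (fun x y : Fin n => (c s(x, y) : ℕ)) := by
    intro x y; simp only [Sym2.eq_swap]
  have h1 : (Finset.univ.powersetCard 3).filter (fun t : Finset (Fin n) =>
      ∃ i : Fin k, ∀ x ∈ t, ∀ y ∈ t, x ≠ y → c s(x, y) = i) =
      (Finset.univ.powersetCard 3).filter (MonoSet (fun x y : Fin n => (c s(x, y) : ℕ))) := by
    ext t
    simp only [Finset.mem_filter, MonoSet]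
    constructor
    · rintro ⟨ht, i, hi⟩
      exact ⟨ht, i, fun x hx y hy hxy => by rw [hi x hx y hy hxy]⟩
    · rintro ⟨ht, i, hi⟩
      refine ⟨ht, ?_⟩
      have ht3 := (Finset.mem_powersetCard.mp ht).2
      obtain ⟨a, b, d, hab, had, hbd, rfl⟩ := Finset.card_eq_three.mp ht3
      refine ⟨c s(a, b), fun x hx y hy hxy => ?_⟩
      apply Fin.ext
      exact (hi x hx y hy hxy).trans (hi a (by simp) b (by simp) hab).symm
  have h2 := T_eq_card hs Finset.univ
  rw [← h1] at h2
  rw [h2]
  unfold monoTriangles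
  congr!

open Pool.Agent.Work.MP_f94239_co in
/-- transfer of a colouring of `range n` by natural numbers below `k` -/
lemma transfer {n k : ℕ} (hk : 1 ≤ k) {c : ℕ → ℕ → ℕ} (hc : Sym c)
    (hu : Uses c (Finset.range n) (Finset.range k)) :
    ∃ c' : Sym2 (Fin n) → Fin k, (∀ x y : Fin n, x ≠ y → (c' s(x, y) : ℕ) = c x y) ∧
      (monoTriangles c' : ℝ) = T c (Finset.range n) := by
  let c' : Sym2 (Fin n) → Fin k := Sym2.lift ⟨fun x y : Fin n =>
    if h : c x y < k then (⟨c x y, h⟩ : Fin k) else ⟨0, hk⟩, by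
      intro x y
      simp only [hc (x : ℕ) (y : ℕ)]⟩
  have hval : ∀ x y : Fin n, x ≠ y → (c' s(x, y) : ℕ) = c x y := by
    intro x y hxy
    have h1 : c x y < k := by
      have := hu x (Finset.mem_range.mpr x.2) y (Finset.mem_range.mpr y.2)
        (fun e => hxy (Fin.ext e))
      exact Finset.mem_range.mp this
    simp only [c', Sym2.lift_mk]
    rw [dif_pos h1]
  refine ⟨c', hval, ?_⟩
  rw [mono_eq]
  have h1 : T (fun x y : Fin n => (c' s(x, y) : ℕ)) Finset.univ =
      T (fun x y : Fin n => c (x : ℕ) (y : ℕ)) Finset.univ :=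
    T_congr (fun x _ y _ hxy => hval x y hxy)
  rw [h1, T_image c (f := fun x : Fin n => (x : ℕ)) (by
    intro x _ y _ h; exact Fin.ext h)]
  congr 1
  ext q
  simp only [Finset.mem_image, Finset.mem_univ, true_and, Finset.mem_range]
  constructor
  · rintro ⟨x, rfl⟩; exact x.2
  · intro h; exact ⟨⟨q, h⟩, rfl⟩

open Pool.Agent.Work.MP_f94239_co in
/-- the internal form of the theorem -/
lemma main_aux {k : ℕ} (hk : 1 ≤ k) (n : ℕ) :
    (∀ c : Sym2 (Fin n) → Fin k, IsGallai c → G k n ≤ monoTriangles c) ∧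
    (∃ c : Sym2 (Fin n) → Fin k, IsGallai c ∧ monoTriangles c = G k n) := by
  constructor
  · intro c hg
    have hs : Sym (fun x y : Fin n => (c s(x, y) : ℕ)) := by
      intro x y; simp only [Sym2.eq_swap]
    have h1 := lower_nat hk hs (S := Finset.univ) (C := Finset.range k) (by
      intro x _ y _ z _ hxy hyz hxz
      rcases hg x y z hxy hyz hxz with h | h | h
      · left; simp only [h]
      · right; left; simp only [h]
      · right; right; simp only [h]) (by
      intro x _ y _ _
      exact Finset.mem_range.mpr (c s(x, y)).2) (by simp)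
    rw [← mono_eq, Finset.card_univ, Fintype.card_fin] at h1
    exact_mod_cast h1
  · obtain ⟨c, hc, hg, hu, hT⟩ := upper_nat hk n
    obtain ⟨c', hval, hmono⟩ := transfer hk hc hu
    refine ⟨c', ?_, ?_⟩
    · intro x y z hxy hyz hxz
      have h1 := hg x (Finset.mem_range.mpr x.2) y (Finset.mem_range.mpr y.2)
        z (Finset.mem_range.mpr z.2) (fun e => hxy (Fin.ext e)) (fun e => hyz (Fin.ext e))
        (fun e => hxz (Fin.ext e))
      rw [← hval x y hxy, ← hval y z hyz, ← hval x z hxz] at h1
      rcases h1 with h | h | h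
      · left; exact Fin.ext h
      · right; left; exact Fin.ext h
      · right; right; exact Fin.ext h
    · rw [hT] at hmono
      exact_mod_cast hmono

lemma isGallai_two {n : ℕ} (c : Sym2 (Fin n) → Fin 2) : IsGallai c := by
  intro x y z _ _ _
  have key : ∀ p q r : Fin 2, p = q ∨ q = r ∨ p = r := by decide
  exact key _ _ _

open Pool.Agent.Work.MP_f94239_co in
lemma M2_eq (m : ℕ) : M2 m = gd m := by
  obtain ⟨h1, c, _, h2⟩ := main_aux (k := 2) (by norm_num) m
  have hG : G 2 m = gd m := by
    unfold G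
    have h : ¬ Odd 2 := by decide
    rw [if_neg h]
    simp [Nat.mod_one]
  rw [hG] at h1 h2
  unfold M2
  apply le_antisymm
  · exact Nat.sInf_le ⟨c, h2⟩
  · have hne : {t | ∃ c : Sym2 (Fin m) → Fin 2, monoTriangles c = t}.Nonempty := ⟨_, c, rfl⟩
    obtain ⟨c', hc'⟩ := Nat.sInf_mem hne
    rw [← hc']
    exact h1 c' (isGallai_two c')

open Pool.Agent.Work.MP_f94239_co in
lemma F_eq (k n : ℕ) : F k n = G k n := by
  unfold F G
  simp only [M2_eq]

/-- For every `k ≥ 1` and every `n`, the number `F_k(n)` is the minimum number of monochromatic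
triangles over all Gallai-`k`-colourings of `K_n`. -/
theorem result (k n : ℕ) (hk : 1 ≤ k) :
    IsLeast {t : ℕ | ∃ c : Sym2 (Fin n) → Fin k, IsGallai c ∧ monoTriangles c = t} (F k n) := by
  rw [F_eq]
  obtain ⟨h1, h2⟩ := main_aux hk n
  refine ⟨h2, ?_⟩
  rintro t ⟨c, hg, rfl⟩
  exact h1 c hg

end Pool.Agent.Results.MP_f94239_co.GallaiMultiplicity
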